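import Pool.Agent.Z125.UN.NI

/-!
# Systems of equations over varying base rings
-/

set_option autoImplicit false

open MvPolynomial

namespace Pool.Agent.W5h93.QD

/-- The algebra given by the equations `G` in the variables `V` over `A`. -/
abbrev Sys (A : Type) [CommRing A] (V : Type) (G : Set (MvPolynomial V A)) : Type :=
  MvPolynomial V A ⧸ Ideal.span G

section lift

variable {R : Type} [CommRing R] {A : Type} [CommRing A] [Algebra R A] {V : Type}
  {G : Set (MvPolynomial V A)} {S : Type} [CommRing S] [Algebra R S]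

variable (R G) in
/-- the constants -/
noncomputable def cS : A →ₐ[R] Sys A V G :=
  (Ideal.Quotient.mkₐ R (Ideal.span G)).comp (IsScalarTower.toAlgHom R A (MvPolynomial V A))

variable (G) in
/-- the variables -/
noncomputable def xS (v : V) : Sys A V G := Ideal.Quotient.mk (Ideal.span G) (X v)

/-- maps from the algebra of a system -/
noncomputable def liftS (f : A →ₐ[R] S) (v : V → S) (h : ∀ g ∈ G, aevalTower f v g = 0) :
    Sys A V G →ₐ[R] S :=
  Ideal.Quotient.liftₐ (Ideal.span G) (aevalTower f v) (fun a ha => by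
    have h1 : Ideal.span G ≤ RingHom.ker (aevalTower f v) := Ideal.span_le.mpr h
    exact h1 ha)

lemma liftS_mk (f : A →ₐ[R] S) (v : V → S) (h : ∀ g ∈ G, aevalTower f v g = 0)
    (p : MvPolynomial V A) : liftS f v h (Ideal.Quotient.mk _ p) = aevalTower f v p := rfl

@[simp] lemma liftS_c (f : A →ₐ[R] S) (v : V → S) (h : ∀ g ∈ G, aevalTower f v g = 0) (a : A) :
    liftS f v h (cS R G a) = f a := by
  change aevalTower f v (C a) = _
  rw [aevalTower_C]

@[simp] lemma liftS_x (f : A →ₐ[R] S) (v : V → S) (h : ∀ g ∈ G, aevalTower f v g = 0) (i : V) :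
    liftS f v h (xS G i) = v i := by
  change aevalTower f v (X i) = _
  rw [aevalTower_X]

lemma extS {f g : Sys A V G →ₐ[R] S} (h1 : ∀ a, f (cS R G a) = g (cS R G a))
    (h2 : ∀ v, f (xS G v) = g (xS G v)) : f = g := by
  apply Ideal.Quotient.algHom_ext
  apply MvPolynomial.algHom_ext'
  · ext a
    exact h1 a
  · intro v
    exact h2 v

lemma extS_apply {f g : Sys A V G →ₐ[R] S} (h1 : ∀ a, f (cS R G a) = g (cS R G a))
    (h2 : ∀ v, f (xS G v) = g (xS G v)) (s : Sys A V G) : f s = g s := by
  rw [extS h1 h2]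

/-- evaluation at the variables -/
lemma aeval_xS (p : MvPolynomial V A) :
    aevalTower (cS R G) (xS G) p = Ideal.Quotient.mk (Ideal.span G) p := by
  have h : aevalTower (cS R G) (xS G) = Ideal.Quotient.mkₐ R (Ideal.span G) := by
    apply MvPolynomial.algHom_ext'
    · ext a
      change aevalTower (cS R G) (xS G) (C a) = _
      rw [aevalTower_C]
      rfl
    · intro v
      rw [aevalTower_X]
      rfl
  rw [h]
  rfl

lemma mk_zero {g : MvPolynomial V A} (h : g ∈ G) :
    Ideal.Quotient.mk (Ideal.span G) g = 0 :=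
  Ideal.Quotient.eq_zero_iff_mem.mpr (Ideal.subset_span h)

instance finiteType_sys [Algebra.FiniteType R A] [Finite V] : Algebra.FiniteType R (Sys A V G) :=
  have : Algebra.FiniteType R (MvPolynomial V A) :=
    Algebra.FiniteType.trans (S := A) inferInstance inferInstance
  Algebra.FiniteType.of_surjective (Ideal.Quotient.mkₐ R (Ideal.span G))
    (Ideal.Quotient.mkₐ_surjective R _)

end lift

section base

variable {R : Type} [CommRing R] {A : Type} [CommRing A] [Algebra R A] {V : Type}
  (G : Set (MvPolynomial V A))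

/-- the equations over another ring -/
abbrev mapG {B : Type} [CommRing B] (f : A →+* B) (G : Set (MvPolynomial V A)) :
    Set (MvPolynomial V B) := MvPolynomial.map f '' G

lemma tower_map {B S : Type} [CommRing B] [Algebra R B] [CommRing S] [Algebra R S] (f : A →ₐ[R] B)
    (g : B →ₐ[R] S) (v : V → S) (p : MvPolynomial V A) :
    aevalTower g v (MvPolynomial.map (f : A →+* B) p) = aevalTower (g.comp f) v p := by
  have h : ((aevalTower g v : MvPolynomial V B →ₐ[R] S) : MvPolynomial V B →+* S).comp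
      (MvPolynomial.map (f : A →+* B)) = (aevalTower (g.comp f) v : MvPolynomial V A →ₐ[R] S) := by
    apply MvPolynomial.ringHom_ext
    · intro a
      change aevalTower g v (MvPolynomial.map (f : A →+* B) (C a)) = aevalTower (g.comp f) v (C a)
      rw [map_C, aevalTower_C, aevalTower_C]
      rfl
    · intro i
      change aevalTower g v (MvPolynomial.map (f : A →+* B) (X i)) = aevalTower (g.comp f) v (X i)
      rw [map_X, aevalTower_X, aevalTower_X]
  exact congrArg (fun φ : MvPolynomial V A →+* S => φ p) h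

variable {B : Type} [CommRing B] [Algebra R B]

/-- base change of the system -/
noncomputable def bcS (f : A →ₐ[R] B) : Sys A V G →ₐ[R] Sys B V (mapG (f : A →+* B) G) :=
  liftS ((cS R _).comp f) (xS _) (by
    intro g hg
    rw [← tower_map, aeval_xS]
    exact mk_zero ⟨g, hg, rfl⟩)

lemma bcS_c (f : A →ₐ[R] B) (a : A) : bcS G f (cS R G a) = cS R _ (f a) := liftS_c _ _ _ _

lemma bcS_x (f : A →ₐ[R] B) (v : V) : bcS G f (xS G v) = xS _ v := liftS_x _ _ _ _

variable {S : Type} [CommRing S] [Algebra R S]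

/-- maps from the base change of the system -/
noncomputable def bcLift (f : A →ₐ[R] B) (φ : Sys A V G →ₐ[R] S) (g : B →ₐ[R] S)
    (h : ∀ a, φ (cS R G a) = g (f a)) : Sys B V (mapG (f : A →+* B) G) →ₐ[R] S :=
  liftS g (fun v => φ (xS G v)) (by
    rintro _ ⟨p, hp, rfl⟩
    rw [tower_map]
    have h1 : (aevalTower (g.comp f) (fun v => φ (xS G v)) : MvPolynomial V A →ₐ[R] S) =
        φ.comp (Ideal.Quotient.mkₐ R (Ideal.span G)) := by
      apply MvPolynomial.algHom_ext'
      · ext a
        change aevalTower (g.comp f) _ (C a) = _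
        rw [aevalTower_C]
        exact (h a).symm
      · intro v
        rw [aevalTower_X]
        rfl
    rw [h1, AlgHom.comp_apply]
    change φ (Ideal.Quotient.mk _ p) = 0
    rw [mk_zero hp, map_zero])

lemma bcLift_c (f : A →ₐ[R] B) (φ : Sys A V G →ₐ[R] S) (g : B →ₐ[R] S)
    (h : ∀ a, φ (cS R G a) = g (f a)) (b : B) : bcLift G f φ g h (cS R _ b) = g b :=
  liftS_c _ _ _ _

lemma bcLift_x (f : A →ₐ[R] B) (φ : Sys A V G →ₐ[R] S) (g : B →ₐ[R] S)
    (h : ∀ a, φ (cS R G a) = g (f a)) (v : V) : bcLift G f φ g h (xS _ v) = φ (xS G v) :=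
  liftS_x _ _ _ _

end base

section isos

variable {R : Type} [CommRing R] {A : Type} [CommRing A] [Algebra R A] {V : Type}
  (G : Set (MvPolynomial V A)) (e : A)

/-- to the system over `A / e` -/
noncomputable def cloA : (Sys A V G ⧸ Ideal.span {cS R G e}) →ₐ[R]
    Sys (A ⧸ Ideal.span {e}) V (mapG (Ideal.Quotient.mkₐ R (Ideal.span {e}) : A →+* _) G) :=
  Ideal.Quotient.liftₐ _ (bcS G (Ideal.Quotient.mkₐ R (Ideal.span {e}))) (by
    intro a ha
    have h1 : Ideal.span {cS R G e} ≤
        RingHom.ker (bcS G (Ideal.Quotient.mkₐ R (Ideal.span {e}))) := by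
      rw [Ideal.span_singleton_le_iff_mem, RingHom.mem_ker]
      change bcS G _ (cS R G e) = 0
      rw [bcS_c]
      have h2 : Ideal.Quotient.mkₐ R (Ideal.span {e}) e = 0 :=
        Ideal.Quotient.eq_zero_iff_mem.mpr (Ideal.mem_span_singleton_self e)
      rw [h2, map_zero]
    exact h1 ha)

/-- the constants of the system over `A / e` -/
noncomputable def cloC : (A ⧸ Ideal.span {e}) →ₐ[R] (Sys A V G ⧸ Ideal.span {cS R G e}) :=
  Ideal.Quotient.liftₐ _ ((Ideal.Quotient.mkₐ R _).comp (cS R G)) (by
    intro a ha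
    have h1 : Ideal.span {e} ≤ RingHom.ker ((Ideal.Quotient.mkₐ R
        (Ideal.span {cS R G e})).comp (cS R G)) := by
      rw [Ideal.span_singleton_le_iff_mem, RingHom.mem_ker]
      exact Ideal.Quotient.eq_zero_iff_mem.mpr (Ideal.mem_span_singleton_self _)
    exact h1 ha)

/-- from the system over `A / e` -/
noncomputable def cloB : Sys (A ⧸ Ideal.span {e}) V
    (mapG (Ideal.Quotient.mkₐ R (Ideal.span {e}) : A →+* _) G) →ₐ[R]
      (Sys A V G ⧸ Ideal.span {cS R G e}) :=
  bcLift (S := Sys A V G ⧸ Ideal.span {cS R G e}) G (Ideal.Quotient.mkₐ R (Ideal.span {e}))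
    (Ideal.Quotient.mkₐ R (Ideal.span {cS R G e})) (cloC G e) (fun _ => rfl)

lemma cloB_c (b : A ⧸ Ideal.span {e}) : cloB (R := R) G e (cS R _ b) = cloC G e b :=
  liftS_c _ _ _ _

lemma cloB_x (v : V) : cloB (R := R) G e (xS _ v) = Ideal.Quotient.mk _ (xS G v) :=
  liftS_x _ _ _ _

/-- restriction to the closed subscheme `e = 0` of the base -/
noncomputable def cloS : (Sys A V G ⧸ Ideal.span {cS R G e}) ≃ₐ[R]
    Sys (A ⧸ Ideal.span {e}) V (mapG (Ideal.Quotient.mkₐ R (Ideal.span {e}) : A →+* _) G) := by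
  refine AlgEquiv.ofAlgHom (cloA G e) (cloB G e) ?_ ?_
  · apply extS
    · intro b
      obtain ⟨a, rfl⟩ := Ideal.Quotient.mk_surjective b
      rw [AlgHom.comp_apply, cloB_c]
      change bcS G _ (cS R G a) = _
      rw [bcS_c]
      rfl
    · intro v
      rw [AlgHom.comp_apply, cloB_x]
      change bcS G _ (xS G v) = _
      rw [bcS_x]
      rfl
  · apply Ideal.Quotient.algHom_ext
    apply extS (S := Sys A V G ⧸ Ideal.span {cS R G e})
    · intro a
      change cloB G e (bcS G _ (cS R G a)) = Ideal.Quotient.mk _ (cS R G a)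
      rw [bcS_c, cloB_c]
      rfl
    · intro v
      change cloB G e (bcS G _ (xS G v)) = Ideal.Quotient.mk _ (xS G v)
      rw [bcS_x, cloB_x]

/-- the localization as a map of algebras -/
noncomputable abbrev locA : A →ₐ[R] Localization.Away e :=
  IsScalarTower.toAlgHom R A (Localization.Away e)

/-- to the system over `A_e` -/
noncomputable def opnA : Localization.Away (cS R G e) →ₐ[R]
    Sys (Localization.Away e) V (mapG (locA (R := R) e : A →+* _) G) :=
  IsLocalization.liftAlgHom (M := Submonoid.powers (cS R G e)) (f := bcS G (locA e)) (by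
    rintro ⟨_, n, rfl⟩
    rw [map_pow]
    refine IsUnit.pow n ?_
    rw [bcS_c]
    exact (IsLocalization.Away.algebraMap_isUnit e).map _)

lemma opnA_mk (s : Sys A V G) : opnA G e (algebraMap _ _ s) = bcS G (locA (R := R) e) s :=
  IsLocalization.lift_eq _ s

/-- the constants of the system over `A_e` -/
noncomputable def opnC : Localization.Away e →ₐ[R] Localization.Away (cS R G e) :=
  IsLocalization.liftAlgHom (M := Submonoid.powers e)
    (f := (IsScalarTower.toAlgHom R (Sys A V G) (Localization.Away (cS R G e))).comp (cS R G)) (by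
      rintro ⟨_, n, rfl⟩
      rw [map_pow]
      exact IsUnit.pow n (IsLocalization.Away.algebraMap_isUnit (cS R G e)))

lemma opnC_mk (a : A) : opnC (R := R) G e (algebraMap _ _ a) = algebraMap _ _ (cS R G a) :=
  IsLocalization.lift_eq _ a

/-- from the system over `A_e` -/
noncomputable def opnB : Sys (Localization.Away e) V (mapG (locA (R := R) e : A →+* _) G) →ₐ[R]
    Localization.Away (cS R G e) :=
  bcLift G (locA e) (IsScalarTower.toAlgHom R (Sys A V G) (Localization.Away (cS R G e)))
    (opnC G e) (fun a => (opnC_mk G e a).symm)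

lemma opnB_c (b : Localization.Away e) : opnB (R := R) G e (cS R _ b) = opnC G e b :=
  bcLift_c G (locA e) (IsScalarTower.toAlgHom R (Sys A V G) (Localization.Away (cS R G e)))
    (opnC G e) (fun a => (opnC_mk G e a).symm) b

lemma opnB_x (v : V) : opnB (R := R) G e (xS _ v) = algebraMap _ _ (xS G v) :=
  bcLift_x G (locA e) (IsScalarTower.toAlgHom R (Sys A V G) (Localization.Away (cS R G e)))
    (opnC G e) (fun a => (opnC_mk G e a).symm) v

/-- restriction to the open subscheme `e ≠ 0` of the base -/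
noncomputable def opnS : Localization.Away (cS R G e) ≃ₐ[R]
    Sys (Localization.Away e) V (mapG (locA (R := R) e : A →+* _) G) := by
  refine AlgEquiv.ofAlgHom (opnA G e) (opnB G e) ?_ ?_
  · apply extS
    · intro b
      have h1 : ((opnA G e).comp (opnB G e)).comp (cS R _) = cS R _ := by
        apply AlgHom.coe_ringHom_injective
        apply IsLocalization.ringHom_ext (Submonoid.powers e)
        ext a
        change opnA G e (opnB G e (cS R _ (algebraMap _ _ a))) = cS R _ (algebraMap _ _ a)
        rw [opnB_c, opnC_mk, opnA_mk, bcS_c]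
        rfl
      exact DFunLike.congr_fun h1 b
    · intro v
      rw [AlgHom.comp_apply, opnB_x, opnA_mk, bcS_x]
      rfl
  · apply AlgHom.coe_ringHom_injective
    apply IsLocalization.ringHom_ext (Submonoid.powers (cS R G e))
    have h2 : ((opnB G e).comp (bcS G (locA e))) =
        IsScalarTower.toAlgHom R (Sys A V G) (Localization.Away (cS R G e)) := by
      apply extS
      · intro a
        rw [AlgHom.comp_apply, bcS_c, opnB_c]
        exact opnC_mk G e a
      · intro v
        rw [AlgHom.comp_apply, bcS_x, opnB_x]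
        rfl
    apply RingHom.ext
    intro s
    change opnB G e (opnA G e (algebraMap (Sys A V G) _ s)) = algebraMap (Sys A V G) _ s
    rw [opnA_mk]
    exact DFunLike.congr_fun h2 s

/-- the ring `A[s] / (s² - u)` -/
abbrev Sq (A : Type) [CommRing A] (u : A) : Type :=
  AdjoinRoot (Polynomial.X ^ 2 - Polynomial.C u : Polynomial A)

variable (R) in
/-- the inclusion of the base -/
noncomputable abbrev sqI (u : A) : A →ₐ[R] Sq A u := IsScalarTower.toAlgHom R A (Sq A u)

lemma sq_root (u : A) : (AdjoinRoot.root (Polynomial.X ^ 2 - Polynomial.C u : Polynomial A) :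
    Sq A u) ^ 2 = sqI R u u := by
  have h := AdjoinRoot.eval₂_root (Polynomial.X ^ 2 - Polynomial.C u : Polynomial A)
  rw [Polynomial.eval₂_sub, Polynomial.eval₂_pow, Polynomial.eval₂_X, Polynomial.eval₂_C,
    sub_eq_zero] at h
  exact h

/-- maps from `A[s] / (s² - u)` -/
noncomputable def sqLift {S : Type} [CommRing S] [Algebra R S] (u : A) (f : A →ₐ[R] S) (x : S)
    (h : x ^ 2 = f u) : Sq A u →ₐ[R] S :=
  AdjoinRoot.liftAlgHom _ f x (by
    rw [Polynomial.eval₂_sub, Polynomial.eval₂_pow, Polynomial.eval₂_X, Polynomial.eval₂_C, h]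
    exact sub_self _)

lemma sqLift_of {S : Type} [CommRing S] [Algebra R S] (u : A) (f : A →ₐ[R] S) (x : S)
    (h : x ^ 2 = f u) (a : A) : sqLift u f x h (sqI R u a) = f a :=
  AdjoinRoot.liftAlgHom_of _ _ _ _ _

lemma sqLift_root {S : Type} [CommRing S] [Algebra R S] (u : A) (f : A →ₐ[R] S) (x : S)
    (h : x ^ 2 = f u) : sqLift u f x h (AdjoinRoot.root _) = x :=
  AdjoinRoot.liftAlgHom_root _ _ _ _

lemma sq_ext {S : Type} [CommRing S] [Algebra R S] {u : A} {f g : Sq A u →ₐ[R] S}
    (h1 : ∀ a, f (sqI R u a) = g (sqI R u a))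
    (h2 : f (AdjoinRoot.root _) = g (AdjoinRoot.root _)) : f = g := by
  apply AlgHom.coe_ringHom_injective
  apply AdjoinRoot.ringHom_ext
  · ext a
    exact h1 a
  · exact h2

variable (u : A)

lemma sqA_h : (cS R (mapG (sqI R u : A →+* _) G) (AdjoinRoot.root _ : Sq A u)) ^ 2 =
    bcS G (sqI R u) (cS R G u) := by
  rw [bcS_c, ← map_pow, sq_root (R := R)]

/-- to the system over the double cover -/
noncomputable def sqA : Sq (Sys A V G) (cS R G u) →ₐ[R] Sys (Sq A u) V (mapG (sqI R u : A →+* _) G) :=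
  sqLift _ (bcS G (sqI R u)) (cS R _ (AdjoinRoot.root _)) (sqA_h G u)

lemma sqA_of (s : Sys A V G) : sqA G u (sqI R _ s) = bcS G (sqI R u) s :=
  sqLift_of _ (bcS G (sqI R u)) _ (sqA_h G u) s

lemma sqA_root : sqA (R := R) G u (AdjoinRoot.root _) = cS R _ (AdjoinRoot.root _) :=
  sqLift_root _ (bcS G (sqI R u)) _ (sqA_h G u)

lemma sqC_h : (AdjoinRoot.root _ : Sq (Sys A V G) (cS R G u)) ^ 2 =
    ((sqI R (cS R G u)).comp (cS R G)) u := sq_root (R := R) _

/-- the constants -/
noncomputable def sqC : Sq A u →ₐ[R] Sq (Sys A V G) (cS R G u) :=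
  sqLift u ((sqI R (cS R G u)).comp (cS R G)) (AdjoinRoot.root _) (sqC_h G u)

lemma sqC_of (a : A) : sqC G u (sqI R u a) = sqI R (cS R G u) (cS R G a) :=
  sqLift_of u ((sqI R (cS R G u)).comp (cS R G)) _ (sqC_h G u) a

lemma sqC_root : sqC (R := R) G u (AdjoinRoot.root _) = AdjoinRoot.root _ :=
  sqLift_root u ((sqI R (cS R G u)).comp (cS R G)) _ (sqC_h G u)

/-- from the system over the double cover -/
noncomputable def sqB : Sys (Sq A u) V (mapG (sqI R u : A →+* _) G) →ₐ[R]
    Sq (Sys A V G) (cS R G u) :=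
  bcLift G (sqI R u) (sqI R (cS R G u)) (sqC G u) (fun a => (sqC_of G u a).symm)

lemma sqB_c (b : Sq A u) : sqB (R := R) G u (cS R _ b) = sqC G u b :=
  bcLift_c G (sqI R u) (sqI R (cS R G u)) (sqC G u) (fun a => (sqC_of G u a).symm) b

lemma sqB_x (v : V) : sqB (R := R) G u (xS _ v) = sqI R (cS R G u) (xS G v) :=
  bcLift_x G (sqI R u) (sqI R (cS R G u)) (sqC G u) (fun a => (sqC_of G u a).symm) v

/-- the double cover of a system -/
noncomputable def sqS : Sq (Sys A V G) (cS R G u) ≃ₐ[R]
    Sys (Sq A u) V (mapG (sqI R u : A →+* _) G) := by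
  refine AlgEquiv.ofAlgHom (sqA G u) (sqB G u) ?_ ?_
  · apply extS
    · intro b
      have h1 : ((sqA G u).comp (sqB G u)).comp (cS R _) = cS R _ := by
        apply sq_ext
        · intro a
          rw [AlgHom.comp_apply, AlgHom.comp_apply, sqB_c, sqC_of, sqA_of, bcS_c]
        · rw [AlgHom.comp_apply, AlgHom.comp_apply, sqB_c, sqC_root, sqA_root]
      exact DFunLike.congr_fun h1 b
    · intro v
      rw [AlgHom.comp_apply, sqB_x, sqA_of, bcS_x]
      rfl
  · apply sq_ext
    · intro s
      have h1 : (((sqB G u).comp (sqA G u)).comp (sqI R (cS R G u))) = sqI R (cS R G u) := by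
        apply extS
        · intro a
          rw [AlgHom.comp_apply, AlgHom.comp_apply, sqA_of, bcS_c, sqB_c, sqC_of]
        · intro v
          rw [AlgHom.comp_apply, AlgHom.comp_apply, sqA_of, bcS_x, sqB_x]
      exact DFunLike.congr_fun h1 s
    · rw [AlgHom.comp_apply, sqA_root, sqB_c, sqC_root]
      rfl

end isos

end Pool.Agent.W5h93.QD
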