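import Pool.Agent.Z125.UN.MotDefs
import Pool.Agent.W5h93.QD.Sys

/-!
# Systems of quadratic equations and motives: definitions
-/

set_option autoImplicit false

open CategoryTheory MonoidalCategory AlgebraicGeometry MvPolynomial Pool.Agent.TH137.DG
  Pool.Agent.Y116.UV Pool.Agent.Z125.UN

namespace Pool.Agent.W5h93.QD

universe v u

variable {k : Type} [Field k] {C : Type u} [Category.{v} C] [MonoidalCategory C]
  [SymmetricCategory C] [Preadditive C] [Linear ℚ C]

/-- For the étale double cover `Spec A[s] / (s² - u) → Spec A`, `u` a unit, the motive with compact
support of the base is a direct summand of the one of the total space. (The composition of the flat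
pull-back and the proper push-forward is multiplication by two. The characteristic of `k` is not two.) -/
def DoubleCoverSummand (D : Motives k C) : Prop :=
  ∀ (A : Type) [CommRing A] [Algebra k A] [Algebra.FiniteType k A] (u : A), IsUnit u →
    ∃ (s : D.Mc (aff k A) ⟶ D.Mc (aff k (Sq A u))) (r : D.Mc (aff k (Sq A u)) ⟶ D.Mc (aff k A)),
      s ≫ r = 𝟙 _

/-- the motives of the smooth schemes of dimension at most `n` are Schur-finite -/
def SFDim (D : Motives k C) (n : ℕ) : Prop :=
  ∀ X : Sch k, FT True X → Smooth X.hom → topologicalKrullDim X.left ≤ n → IsSchurFinite (D.M X)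

/-- The motive with compact support is Schur-finite, and so is the motive if the scheme is smooth. -/
def SF (D : Motives k C) (X : Sch k) : Prop :=
  IsSchurFinite (D.Mc X) ∧ (Smooth X.hom → IsSchurFinite (D.M X))

/-- For every algebra `A` of finite type over `k` of dimension at most `s`, and every subscheme of the
affine space over `Spec A` given by `r + 1` equations of degree at most two and any number of equations
of degree at most one in the coordinates of the affine space, where `s + r ≤ n`, the motive with compact
support of the subscheme is Schur-finite, and so is its motive, if it is smooth. -/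
def SFQuadrics (D : Motives k C) (n : ℕ) : Prop :=
  ∀ (A : Type) [CommRing A] [Algebra k A] [Algebra.FiniteType k A] (s r : ℕ),
    ringKrullDim A ≤ s → s + r ≤ n → ∀ (N m : ℕ) (b : Fin m → MvPolynomial (Fin N) A)
    (q : Fin (r + 1) → MvPolynomial (Fin N) A), (∀ j, (b j).totalDegree ≤ 1) →
    (∀ l, (q l).totalDegree ≤ 2) → SF D (aff k (Sys A (Fin N) (Set.range b ∪ Set.range q)))

/-- The motives with compact support of the closed subschemes of affine spaces over `k` given by `m`
equations of degree at most two are Schur-finite. -/
def SFSystems (D : Motives k C) (m : ℕ) : Prop :=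
  ∀ (N : ℕ) (q : Fin m → MvPolynomial (Fin N) k), (∀ l, (q l).totalDegree ≤ 2) →
    IsSchurFinite (D.Mc (aff k (Sys k (Fin N) (Set.range q))))

end Pool.Agent.W5h93.QD
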