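import Pool.Agent.W5h93.QD.Lem

/-!
# Sums of two squares and hyperbolic planes
-/

set_option autoImplicit false

open CategoryTheory AlgebraicGeometry MvPolynomial Pool.Agent.Y116.UV Pool.Agent.Z125.UN

namespace Pool.Agent.W5h93.QD

section hyp

variable {A : Type} [CommRing A] {W : Type}

/-- the first variable -/
noncomputable abbrev xx (A : Type) [CommRing A] (W : Type) : MvPolynomial (Option (Option W)) A :=
  X none

/-- the second variable -/
noncomputable abbrev yy (A : Type) [CommRing A] (W : Type) : MvPolynomial (Option (Option W)) A :=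
  X (some none)

/-- a linear map of the first two variables -/
noncomputable def lm (p q r t : A) :
    MvPolynomial (Option (Option W)) A →ₐ[A] MvPolynomial (Option (Option W)) A :=
  aeval (fun o => o.elim (C p * xx A W + C q * yy A W)
    (fun o' => o'.elim (C r * xx A W + C t * yy A W) (fun w => X (some (some w)))))

lemma lm_x (p q r t : A) : lm p q r t (xx A W) = C p * xx A W + C q * yy A W := aeval_X _ _

lemma lm_y (p q r t : A) : lm p q r t (yy A W) = C r * xx A W + C t * yy A W := aeval_X _ _

lemma lm_z (p q r t : A) (w : W) : lm p q r t (X (some (some w))) = X (some (some w)) :=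
  aeval_X _ _

lemma lm_C (p q r t a : A) : lm p q r t (C a) = (C a : MvPolynomial (Option (Option W)) A) :=
  (lm p q r t).commutes a

lemma lm_rename (p q r t : A) (f : MvPolynomial W A) :
    lm p q r t (rename some (rename some f)) = rename some (rename some f) := by
  have h : ((lm p q r t).comp (rename some)).comp (rename some) =
      ((rename some).comp (rename some) : MvPolynomial W A →ₐ[A] _) := by
    apply MvPolynomial.algHom_ext
    intro w
    simp only [AlgHom.comp_apply, rename_X]
    rw [lm_z]
  exact DFunLike.congr_fun h f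

lemma lm_lm {p q r t p' q' r' t' : A} (h1 : p' * p + q' * r = 1) (h2 : p' * q + q' * t = 0)
    (h3 : r' * p + t' * r = 0) (h4 : r' * q + t' * t = 1) :
    (lm p q r t).comp (lm p' q' r' t') = AlgHom.id A (MvPolynomial (Option (Option W)) A) := by
  have e : ∀ a b c d : A, lm p q r t (C a * xx A W + C b * yy A W) =
      C (a * p + b * r) * xx A W + C (a * q + b * t) * yy A W := by
    intro a b c d
    simp only [map_add, map_mul, lm_x, lm_y, lm_C]
    ring
  apply MvPolynomial.algHom_ext
  intro o
  rw [AlgHom.comp_apply, AlgHom.id_apply]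
  rcases o with _ | (_ | w)
  · rw [lm_x, e _ _ 0 0, h1, h2, C_1, C_0]
    ring
  · rw [lm_y, e _ _ 0 0, h3, h4, C_1, C_0]
    ring
  · rw [lm_z, lm_z]

/-- The change of coordinates with `ψ x = h (x + i y)`, `ψ y = h s' (x - i y)`, with the inverse
`x ↦ x + s y`, `y ↦ α (x - s y)`, if `h = 1 / 2`, `i = 1 / α`, `s' = 1 / s`. -/
noncomputable def hypE {α i s s' h : A} (hi : i * α = 1) (hs : s' * s = 1) (hh : h + h = 1) :
    MvPolynomial (Option (Option W)) A ≃ₐ[A] MvPolynomial (Option (Option W)) A :=
  AlgEquiv.ofAlgHom (lm h (h * i) (h * s') (-(h * s' * i))) (lm 1 s α (-(α * s)))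
    (lm_lm (by linear_combination h * hs + hh) (by linear_combination -(h * i) * hs)
      (by linear_combination -(α * h) * hs)
      (by linear_combination (h * α * i) * hs + 2 * h * hi + hh))
    (lm_lm (by linear_combination h * hi + hh) (by linear_combination -(h * s) * hi)
      (by linear_combination -(h * s') * hi)
      (by linear_combination (h * s * s') * hi + 2 * h * hs + hh))

/-- a sum of two squares is a hyperbolic plane over the double cover -/
lemma hyp_eq {α i s s' h : A} (hi : i * α = 1) (hs : s' * s = 1) (hh : h + h = 1)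
    (f : MvPolynomial W A) :
    hypE (W := W) hi hs hh (C α * xx A W ^ 2 + C (-(α * s ^ 2)) * yy A W ^ 2 +
      rename some (rename some f)) =
    rename some (X none) * xx A W + rename some (rename some f) := by
  change lm h (h * i) (h * s') (-(h * s' * i)) _ = _
  simp only [map_add, map_mul, map_pow, lm_x, lm_y, lm_C, lm_rename, map_neg, rename_X]
  have e1 : (C i : MvPolynomial (Option (Option W)) A) * C α = 1 := by rw [← C_mul, hi, C_1]
  have e2 : (C h : MvPolynomial (Option (Option W)) A) + C h = 1 := by rw [← C_add, hh, C_1]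
  have e3 : (C s' : MvPolynomial (Option (Option W)) A) * C s = 1 := by rw [← C_mul, hs, C_1]
  have e4 : (C s' : MvPolynomial (Option (Option W)) A) ^ 2 * C s ^ 2 = 1 := by
    rw [← mul_pow, e3, one_pow]
  have e5 : (C h : MvPolynomial (Option (Option W)) A) ^ 2 * 4 = 1 := by
    linear_combination (2 * C h + 1) * e2
  set x := xx A W
  set y := yy A W
  linear_combination (-(C α * C h ^ 2 * (x - C i * y) ^ 2)) * e4 + (4 * C h ^ 2 * x * y) * e1 +
    x * y * e5

end hyp

section

variable {R : Type} [CommRing R] {sep : Prop} {P : Sch R → Prop} (hP : Bnd sep P)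

/-- The property descends along the étale double covers `Spec A[s] / (s² - u) → Spec A`, `u` a unit. -/
def DoubleCovers (P : Sch R → Prop) : Prop :=
  ∀ (A : Type) [CommRing A] [Algebra R A] [Algebra.FiniteType R A] (u : A), IsUnit u →
    P (aff R (Sq A u)) → P (aff R A)

/-- A class of algebras closed under quotients, localizations at one element, and quadratic
extensions. -/
structure Base (K : ∀ (A : Type) [CommRing A] [Algebra R A], Prop) : Prop where
  quot : ∀ (A : Type) [CommRing A] [Algebra R A], K A → ∀ I : Ideal A, K (A ⧸ I)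
  away : ∀ (A : Type) [CommRing A] [Algebra R A], K A → ∀ e : A, K (Localization.Away e)
  sq : ∀ (A : Type) [CommRing A] [Algebra R A], K A → ∀ u : A, K (Sq A u)

variable (K : ∀ (A : Type) [CommRing A] [Algebra R A], Prop)

/-- the property for systems of a quadratic and linear equations in `N` variables -/
def TL (P : Sch R → Prop) (N : ℕ) : Prop :=
  ∀ (A : Type) [CommRing A] [Algebra R A] [Algebra.FiniteType R A], K A → ∀ (V : Type) [Fintype V],
    Fintype.card V = N → ∀ (κ : Type) [Finite κ] (b : κ → MvPolynomial V A)
    (q : MvPolynomial V A), (∀ j, (b j).totalDegree ≤ 1) → q.totalDegree ≤ 2 →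
    P (aff R (Sys A V (insert q (Set.range b))))

/-- the property for a quadratic equation in `N` variables -/
def TQ (P : Sch R → Prop) (N : ℕ) : Prop :=
  ∀ (A : Type) [CommRing A] [Algebra R A] [Algebra.FiniteType R A], K A → ∀ (V : Type) [Fintype V],
    Fintype.card V = N → ∀ (q : MvPolynomial V A), q.totalDegree ≤ 2 →
    P (aff R (Sys A V {q}))

variable {K}

include hP

/-- one linear equation -/
lemma tl_one {N : ℕ} (h : TL K P N) (A : Type) [CommRing A] [Algebra R A] [Algebra.FiniteType R A]
    (hA : K A) (V : Type) [Fintype V] (hV : Fintype.card V = N) (b : MvPolynomial V A)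
    (hb : b.totalDegree ≤ 1) : P (aff R (Sys A V {b})) := by
  have h1 := h A hA V hV PUnit (fun _ => b) 0 (fun _ => hb) (by rw [totalDegree_zero]; omega)
  refine p_eq hP ?_ h1
  rw [Set.range_const, Ideal.span_insert_zero]

/-- a linear and a quadratic equation -/
lemma tl_two {N : ℕ} (h : TL K P N) (A : Type) [CommRing A] [Algebra R A] [Algebra.FiniteType R A]
    (hA : K A) (V : Type) [Fintype V] (hV : Fintype.card V = N) (b c : MvPolynomial V A)
    (hb : b.totalDegree ≤ 1) (hc : c.totalDegree ≤ 2) : P (aff R (Sys A V {b, c})) := by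
  have h1 := h A hA V hV PUnit (fun _ => b) c (fun _ => hb) hc
  refine p_eq hP ?_ h1
  rw [Set.range_const, Set.pair_comm]

/-- an equation which is linear in one variable -/
lemma tl_opt {N : ℕ} (h : TL K P N) (hK : ∀ (A : Type) [CommRing A] [Algebra R A]
    [Algebra.FiniteType R A], K A → P (aff R A)) (A : Type) [CommRing A] [Algebra R A]
    [Algebra.FiniteType R A] (hA : K A) (W : Type) [Fintype W] (hW : Fintype.card W = N)
    (b c : MvPolynomial W A) (hb : b.totalDegree ≤ 1) (hc : c.totalDegree ≤ 2) :
    P (aff R (Sys A (Option W) {rename some b * X none + rename some c})) :=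
  p_opt hP b c (hK A hA) (tl_one hP h A hA W hW b hb) (tl_two hP h A hA W hW b c hb hc)

/-- a sum of two squares -/
lemma two_sq {N : ℕ} (h : TL K P N) (hD : DoubleCovers P) (hB : Base K)
    (hK : ∀ (A : Type) [CommRing A] [Algebra R A] [Algebra.FiniteType R A], K A → P (aff R A))
    (A : Type) [CommRing A] [Algebra R A] [Algebra.FiniteType R A] (hA : K A) (W : Type)
    [Fintype W] (hW : Fintype.card W + 1 = N) {α i β j t : A} (hi : i * α = 1) (hj : j * β = 1)
    (ht : t + t = 1) (f : MvPolynomial W A) (hf : f.totalDegree ≤ 2) :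
    P (aff R (Sys A (Option (Option W)) {C α * xx A W ^ 2 + C β * yy A W ^ 2 +
      rename some (rename some f)})) := by
  -- `β = - α u`
  let u : A := -(i * β)
  have hu : IsUnit u := by
    refine IsUnit.of_mul_eq_one (-(α * j)) ?_
    linear_combination (i * α) * hj + hi
  set G : Set (MvPolynomial (Option (Option W)) A) := {C α * xx A W ^ 2 + C β * yy A W ^ 2 +
      rename some (rename some f)} with hG
  apply hD (Sys A (Option (Option W)) G) (cS R G u) (hu.map _)
  have : Algebra.FiniteType R (Sq A u) := inferInstance
  refine iso_alg hP.toUni (sqS G u).symm ?_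
  -- the root
  let s : Sq A u := AdjoinRoot.root _
  let ι : A →+* Sq A u := (sqI R u : A →+* Sq A u)
  have hs : s ^ 2 = ι u := sq_root (R := R) u
  obtain ⟨v, hv⟩ := hu
  have hv' : (↑v⁻¹ : A) * u = 1 := by
    have h1 := v.inv_mul
    rw [hv] at h1
    exact h1
  let s' : Sq A u := ι (↑v⁻¹) * s
  have hs' : s' * s = 1 := by
    have h1 : s' * s = ι (↑v⁻¹) * s ^ 2 := by
      change ι (↑v⁻¹) * s * s = _
      ring
    rw [h1, hs, ← map_mul, hv', map_one]
  have hi' : ι i * ι α = 1 := by rw [← map_mul, hi, map_one]
  have ht' : ι t + ι t = 1 := by rw [← map_add, ht, map_one]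
  have hβ : ι β = -(ι α * s ^ 2) := by
    have h2 : ι u = -(ι i * ι β) := by
      change ι (-(i * β)) = _
      simp only [map_neg, map_mul]
    rw [hs, h2]
    linear_combination (-ι β) * hi'
  have e1 : mapG ι G = {C (ι α) * xx (Sq A u) W ^ 2 + C (-(ι α * s ^ 2)) * yy (Sq A u) W ^ 2 +
      rename some (rename some (MvPolynomial.map ι f))} := by
    rw [mapG, hG, Set.image_singleton]
    simp only [map_add, map_mul, map_pow, map_C, map_X, map_rename, hβ]
  change P (aff R (Sys (Sq A u) (Option (Option W)) (mapG ι G)))
  rw [e1]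
  apply p_re hP (hypE (W := W) hi' hs' ht')
  rw [Set.image_singleton, hyp_eq hi' hs' ht']
  apply tl_opt hP h hK (Sq A u) (hB.sq A hA u) (Option W) (by rw [Fintype.card_option]; exact hW)
  · rw [← mul_one (X none : MvPolynomial (Option W) (Sq A u))]
    refine (totalDegree_mul _ _).trans ?_
    rw [totalDegree_one, add_zero]
    exact (totalDegree_monomial_le _ _).trans (by rw [Finsupp.sum_single_index] <;> rfl)
  · exact (totalDegree_rename_le _ _).trans ((deg_map ι f).trans hf)

end

end Pool.Agent.W5h93.QD
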