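import Pool.Agent.W5h93.QD.Rec
import Pool.Agent.Z125.UN.Dim

/-!
# Several quadratic equations
-/

set_option autoImplicit false

open CategoryTheory AlgebraicGeometry MvPolynomial Pool.Agent.Y116.UV Pool.Agent.Z125.UN

namespace Pool.Agent.W5h93.QD

section jou

variable {R : Type} [CommRing R] {E : Type} [CommRing E] [Algebra R E]

/-- Jouanolou's equation -/
def JG {κ : Type} [Fintype κ] (f : κ → E) : Set (MvPolynomial κ E) := {∑ l, C (f l) * X l - 1}

lemma JG_mk {κ : Type} [Fintype κ] (G : Set (MvPolynomial κ E)) (a : E) (l : κ) :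
    Ideal.Quotient.mk (Ideal.span G) (C a * X l) = cS R G a * xS G l := map_mul _ _ _

variable (R) in
lemma JG_rel {κ : Type} [Fintype κ] (f : κ → E) :
    ∑ l, cS R (JG f) (f l) * xS (JG f) l = 1 := by
  have h3 : Ideal.Quotient.mk (Ideal.span (JG f)) (∑ l, C (f l) * X l - 1) = 0 :=
    mk_zero (Set.mem_singleton _)
  rw [map_sub, map_one, sub_eq_zero, map_sum] at h3
  rw [← h3]
  exact Finset.sum_congr rfl fun l _ => (JG_mk (JG f) (f l) l).symm

lemma JG_lift {κ : Type} [Fintype κ] (f : κ → E) {S : Type} [CommRing S] [Algebra R S]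
    (φ : E →ₐ[R] S) (v : κ → S) (h : ∑ l, φ (f l) * v l = 1) :
    ∀ g ∈ JG f, aevalTower φ v g = 0 := by
  intro g hg
  rw [Set.mem_singleton_iff.mp hg, map_sub, map_one, map_sum, sub_eq_zero]
  rw [← h]
  refine Finset.sum_congr rfl fun l _ => ?_
  rw [map_mul, aevalTower_C, aevalTower_X]

variable {κ : Type} [Fintype κ] (f : Option κ → E)

/-- the equation in the remaining variables -/
noncomputable def ff : MvPolynomial κ E := C (f none) + ∑ l, C (f (some l)) * X l

lemma ff_map {S : Type} [CommRing S] (φ : MvPolynomial κ E →+* S) :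
    φ (ff f) = φ (C (f none)) + ∑ l, φ (C (f (some l))) * φ (X l) := by
  unfold ff
  rw [map_add, map_sum]
  congr 1
  exact Finset.sum_congr rfl fun l _ => map_mul _ _ _

/-- the inverse of the equation -/
noncomputable def fi : Localization.Away (ff f) := IsLocalization.Away.invSelf (ff f)

lemma fi_mul : algebraMap _ (Localization.Away (ff f)) (ff f) * fi f = 1 :=
  IsLocalization.Away.mul_invSelf (ff f)

variable (R)

/-- constants -/
noncomputable def cL : E →ₐ[R] Localization.Away (ff f) :=
  (IsScalarTower.toAlgHom R (MvPolynomial κ E) (Localization.Away (ff f))).comp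
    (IsScalarTower.toAlgHom R E (MvPolynomial κ E))

lemma cL_apply (a : E) :
    cL R f a = algebraMap (MvPolynomial κ E) (Localization.Away (ff f)) (C a) := rfl

/-- the values of the variables -/
noncomputable def vL (o : Option κ) : Localization.Away (ff f) :=
  o.elim (fi f) (fun l => algebraMap _ _ (X l : MvPolynomial κ E) * fi f)

lemma vL_sum : ∑ o, cL R f (f o) * vL f o = 1 := by
  rw [Fintype.sum_option, ← fi_mul f, ff_map, add_mul, Finset.sum_mul]
  congr 1
  refine Finset.sum_congr rfl fun l _ => ?_
  rw [mul_assoc]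
  rfl

/-- to the complement of the hypersurface -/
noncomputable def toL : Sys E (Option κ) (JG f) →ₐ[R] Localization.Away (ff f) :=
  liftS (cL R f) (vL f) (JG_lift f (cL R f) (vL f) (vL_sum R f))

lemma toL_c (a : E) : toL R f (cS R _ a) = cL R f a := liftS_c _ _ _ _

lemma toL_x (o : Option κ) : toL R f (xS _ o) = vL f o := liftS_x _ _ _ _

lemma toL_unit (y : Submonoid.powers (xS (JG f) none)) : IsUnit (toL R f y) := by
  obtain ⟨_, n, rfl⟩ := y
  change IsUnit (toL R f (xS (JG f) none ^ n))
  rw [map_pow]
  refine IsUnit.pow n ?_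
  rw [toL_x]
  exact IsUnit.of_mul_eq_one _ ((mul_comm _ _).trans (fi_mul f))

/-- to the complement of the hypersurface -/
noncomputable def toLL : Localization.Away (xS (JG f) none) →ₐ[R] Localization.Away (ff f) :=
  IsLocalization.liftAlgHom (M := Submonoid.powers (xS (JG f) none)) (f := toL R f) (toL_unit R f)

lemma toLL_mk (s : Sys E (Option κ) (JG f)) :
    toLL R f (algebraMap _ _ s) = toL R f s := IsLocalization.lift_eq _ s

/-- the inverse of the first variable -/
noncomputable def xi : Localization.Away (xS (JG f) none) :=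
  IsLocalization.Away.invSelf (xS (JG f) none)

lemma xi_mul : algebraMap _ (Localization.Away (xS (JG f) none)) (xS (JG f) none) * xi f = 1 :=
  IsLocalization.Away.mul_invSelf _

/-- constants -/
noncomputable def cM : E →ₐ[R] Localization.Away (xS (JG f) none) :=
  (IsScalarTower.toAlgHom R (Sys E (Option κ) (JG f)) (Localization.Away (xS (JG f) none))).comp
    (cS R (JG f))

lemma cM_apply (a : E) : cM R f a = algebraMap _ (Localization.Away (xS (JG f) none))
    (cS R (JG f) a) := rfl

/-- backwards -/
noncomputable def bk : MvPolynomial κ E →ₐ[R] Localization.Away (xS (JG f) none) :=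
  aevalTower (cM R f) (fun l => algebraMap _ _ (xS (JG f) (some l)) * xi f)

lemma bk_C (a : E) : bk R f (C a) = cM R f a := aevalTower_C _ _ _

lemma bk_X (l : κ) : bk R f (X l) = algebraMap _ _ (xS (JG f) (some l)) * xi f :=
  aevalTower_X _ _ _

lemma bk_ff : bk R f (ff f) = xi f := by
  have h0 : bk R f (ff f) = (bk R f : MvPolynomial κ E →+* _) (ff f) := rfl
  rw [h0, ff_map]
  have h1 := congrArg (algebraMap _ (Localization.Away (xS (JG f) none))) (JG_rel R f)
  rw [Fintype.sum_option, map_add, map_sum, map_one, map_mul] at h1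
  have h2 : ∀ l, (bk R f : MvPolynomial κ E →+* _) (C (f (some l))) *
      (bk R f : MvPolynomial κ E →+* _) (X l) =
      algebraMap _ (Localization.Away (xS (JG f) none))
        (cS R (JG f) (f (some l)) * xS (JG f) (some l)) * xi f := by
    intro l
    change bk R f (C (f (some l))) * bk R f (X l) = _
    rw [bk_C, bk_X, map_mul, mul_assoc]
    rfl
  rw [Finset.sum_congr rfl fun l _ => h2 l, ← Finset.sum_mul]
  have h3 : (bk R f : MvPolynomial κ E →+* _) (C (f none)) =
      algebraMap _ (Localization.Away (xS (JG f) none)) (cS R (JG f) (f none)) := bk_C R f _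
  rw [h3]
  linear_combination (xi f) * h1 - algebraMap _ (Localization.Away (xS (JG f) none))
      (cS R (JG f) (f none)) * xi_mul f

lemma bk_unit (y : Submonoid.powers (ff f)) : IsUnit (bk R f y) := by
  obtain ⟨_, n, rfl⟩ := y
  change IsUnit (bk R f (ff f ^ n))
  rw [map_pow]
  refine IsUnit.pow n ?_
  rw [bk_ff]
  exact IsUnit.of_mul_eq_one _ ((mul_comm _ _).trans (xi_mul f))

/-- backwards -/
noncomputable def bkL : Localization.Away (ff f) →ₐ[R] Localization.Away (xS (JG f) none) :=
  IsLocalization.liftAlgHom (M := Submonoid.powers (ff f)) (f := bk R f) (bk_unit R f)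

lemma bkL_mk (s : MvPolynomial κ E) : bkL R f (algebraMap _ _ s) = bk R f s :=
  IsLocalization.lift_eq _ s

lemma bkL_fi : bkL R f (fi f) = algebraMap _ _ (xS (JG f) none) := by
  have h1 := congrArg (bkL R f) (fi_mul f)
  rw [map_mul, map_one, bkL_mk, bk_ff] at h1
  have h2 := xi_mul f
  linear_combination (algebraMap _ (Localization.Away (xS (JG f) none)) (xS (JG f) none)) * h1 -
    bkL R f (fi f) * h2

lemma toLL_xi : toLL R f (xi f) = algebraMap _ _ (ff f) := by
  have h1 := congrArg (toLL R f) (xi_mul f)
  rw [map_mul, map_one, toLL_mk, toL_x] at h1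
  have h3 : vL f none = fi f := rfl
  rw [h3] at h1
  have h2 := fi_mul f
  linear_combination (algebraMap _ (Localization.Away (ff f)) (ff f)) * h1 -
    toLL R f (xi f) * h2

lemma jou1 : (toLL R f).comp (bk R f) =
    IsScalarTower.toAlgHom R (MvPolynomial κ E) (Localization.Away (ff f)) := by
  apply MvPolynomial.algHom_ext'
  · ext a
    change toLL R f (bk R f (C a)) =
      algebraMap (MvPolynomial κ E) (Localization.Away (ff f)) (C a)
    rw [bk_C, cM_apply, toLL_mk, toL_c]
    rfl
  · intro l
    rw [AlgHom.comp_apply, bk_X, map_mul, toLL_mk, toL_x, toLL_xi]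
    change algebraMap (MvPolynomial κ E) _ (X l) * fi f * algebraMap _ _ (ff f) =
      algebraMap (MvPolynomial κ E) (Localization.Away (ff f)) (X l)
    linear_combination
      (algebraMap (MvPolynomial κ E) (Localization.Away (ff f)) (X l)) * fi_mul f

lemma jou2 : (bkL R f).comp (toL R f) = IsScalarTower.toAlgHom R (Sys E (Option κ) (JG f))
    (Localization.Away (xS (JG f) none)) := by
  apply extS
  · intro a
    rw [AlgHom.comp_apply, toL_c, cL_apply, bkL_mk, bk_C]
    rfl
  · intro o
    rw [AlgHom.comp_apply, toL_x]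
    rcases o with _ | l
    · exact bkL_fi R f
    · change bkL R f (algebraMap (MvPolynomial κ E) _ (X l) * fi f) = _
      rw [map_mul, bkL_mk, bkL_fi, bk_X]
      change _ = algebraMap _ _ (xS (JG f) (some l))
      linear_combination (algebraMap _ (Localization.Away (xS (JG f) none))
        (xS (JG f) (some l))) * xi_mul f

/-- the open part of Jouanolou's bundle -/
noncomputable def jouE : Localization.Away (xS (JG f) none) ≃ₐ[R] Localization.Away (ff f) := by
  refine AlgEquiv.ofAlgHom (toLL R f) (bkL R f) ?_ ?_
  · apply AlgHom.coe_ringHom_injective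
    apply IsLocalization.ringHom_ext (Submonoid.powers (ff f))
    apply RingHom.ext
    intro s
    change toLL R f (bkL R f (algebraMap (MvPolynomial κ E) _ s)) =
      algebraMap (MvPolynomial κ E) _ s
    rw [bkL_mk]
    exact DFunLike.congr_fun (jou1 R f) s
  · apply AlgHom.coe_ringHom_injective
    apply IsLocalization.ringHom_ext (Submonoid.powers (xS (JG f) none))
    apply RingHom.ext
    intro s
    change bkL R f (toLL R f (algebraMap (Sys E (Option κ) (JG f)) _ s)) =
      algebraMap (Sys E (Option κ) (JG f)) _ s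
    rw [toLL_mk]
    exact DFunLike.congr_fun (jou2 R f) s

end jou

end Pool.Agent.W5h93.QD
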