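import Pool.Agent.W5h93.QD.JouS

/-!
# Jouanolou's device for quadratic equations
-/

set_option autoImplicit false

open CategoryTheory AlgebraicGeometry MvPolynomial Pool.Agent.Y116.UV Pool.Agent.Z125.UN

namespace Pool.Agent.W5h93.QD

section step

variable {R : Type} [CommRing R] {sep : Prop} {P : Sch R → Prop} (hP : Bnd sep P)

/-- no variables -/
lemma jou_zero (hP : Bnd sep P) {E : Type} [CommRing E] [Algebra R E] {κ : Type} [Fintype κ]
    [IsEmpty κ] (f : κ → E) : P (aff R (Sys E κ (JG f))) := by
  refine p_empty hP _ ?_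
  rw [Ideal.Quotient.subsingleton_iff, Ideal.eq_top_iff_one]
  have h1 : (∑ l, C (f l) * X l - 1 : MvPolynomial κ E) ∈ Ideal.span (JG f) :=
    Ideal.subset_span (Set.mem_singleton _)
  have h2 : (∑ l, C (f l) * X l - 1 : MvPolynomial κ E) = -1 := by
    rw [Finset.univ_eq_empty, Finset.sum_empty, zero_sub]
  rw [h2] at h1
  exact (Ideal.neg_mem_iff _).mp h1

/-- relabelling of the variables -/
lemma jou_equiv (hP : Bnd sep P) {E : Type} [CommRing E] [Algebra R E] [Algebra.FiniteType R E]
    {κ κ' : Type} [Fintype κ] [Fintype κ'] (σ : κ ≃ κ') (f : κ → E)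
    (h : P (aff R (Sys E κ' (JG fun l => f (σ.symm l))))) : P (aff R (Sys E κ (JG f))) := by
  apply p_re hP (renameEquiv E σ)
  have h1 : renameEquiv E σ '' JG f = JG fun l => f (σ.symm l) := by
    rw [JG, JG, Set.image_singleton]
    congr 1
    rw [map_sub, map_one, map_sum]
    congr 1
    rw [← Equiv.sum_comp σ]
    refine Finset.sum_congr rfl fun l _ => ?_
    rw [Equiv.symm_apply_apply, map_mul]
    change rename σ (C (f l)) * rename σ (X l) = _
    rw [rename_C, rename_X]
  rw [h1]
  exact h

include hP

/-- one more variable -/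
lemma jou_step {E : Type} [CommRing E] [Algebra R E] [Algebra.FiniteType R E] {κ : Type}
    [Fintype κ] (f : Option κ → E) (hE : P (aff R E))
    (h1 : P (aff R (Sys E κ (JG fun l => f (some l))))) (h2 : P (aff R (Sys E κ {ff f}))) :
    P (aff R (Sys E (Option κ) (JG f))) := by
  have hf1 : Algebra.FiniteType R (MvPolynomial κ E) :=
    Algebra.FiniteType.trans (S := E) inferInstance inferInstance
  have hf2 : Algebra.FiniteType R (MvPolynomial (Option κ) E) :=
    Algebra.FiniteType.trans (S := E) inferInstance inferInstance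
  refine ring_total hP (xS (JG f) none) ?_ ?_
  · refine quot_mk hP (Ideal.span (JG f)) (X none) ?_
    rw [← Ideal.span_union]
    change P (aff R (Sys E (Option κ) (JG f ∪ {X none})))
    have hn : X none - rename some (0 : MvPolynomial κ E) ∈
        Ideal.span (JG f ∪ {(X none : MvPolynomial (Option κ) E)}) := by
      rw [map_zero, sub_zero]
      exact Ideal.subset_span (Or.inr rfl)
    refine iso_alg hP.toUni (elimE (JG f ∪ {X none}) 0 hn).symm ?_
    refine p_eq hP ?_ h1
    rw [Set.image_union, Set.image_singleton, JG, JG, Set.image_singleton, map_sub, map_one,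
      map_sum, Fintype.sum_option, aeval_X]
    have h3 : aeval (R := E) (fun o : Option κ => o.elim (0 : MvPolynomial κ E) X)
        (C (f none) * X none) = 0 := by
      rw [map_mul, aeval_X]
      exact mul_zero _
    have h4 : ∀ l : κ, aeval (R := E) (fun o : Option κ => o.elim (0 : MvPolynomial κ E) X)
        (C (f (some l)) * X (some l)) = C (f (some l)) * X l := by
      intro l
      rw [map_mul, aeval_X, aeval_C]
      rfl
    rw [h3, zero_add, Finset.sum_congr rfl fun l _ => h4 l, Ideal.span_union]
    change _ = _ ⊔ Ideal.span {(0 : MvPolynomial κ E)}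
    rw [Ideal.span_singleton_zero, sup_bot_eq]
  · have := ft_away (R := R) (ff f)
    exact iso_alg hP.toUni (jouE R f).symm (ring_open hP (ff f) h2 (p_poly hP κ hE))

/-- the bundle over the complement of the system `f = 0` -/
lemma jou_all {E : Type} [CommRing E] [Algebra R E] [Algebra.FiniteType R E] (hE : P (aff R E))
    (Q : E → Prop) (m : ℕ) (H : ∀ (κ : Type) [Fintype κ], Fintype.card κ < m →
      ∀ f : Option κ → E, (∀ o, Q (f o)) → P (aff R (Sys E κ {ff f}))) :
    ∀ (N : ℕ), N ≤ m → ∀ (κ : Type) [Fintype κ], Fintype.card κ = N → ∀ f : κ → E,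
      (∀ o, Q (f o)) → P (aff R (Sys E κ (JG f)))
  | 0, _, κ, _, hκ, f, _ => by
    have : IsEmpty κ := Fintype.card_eq_zero_iff.mp hκ
    exact jou_zero hP f
  | N + 1, hN, κ, _, hκ, f, hf => by
    let σ : κ ≃ Option (Fin N) := Fintype.equivOfCardEq (by
      rw [hκ, Fintype.card_option, Fintype.card_fin])
    refine jou_equiv hP σ f ?_
    refine jou_step hP _ hE ?_ ?_
    · exact jou_all hE Q m H N (by omega) (Fin N) (Fintype.card_fin N) _ fun o => hf _
    · refine H (Fin N) (by rw [Fintype.card_fin]; omega) _ fun o => hf _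

end step

end Pool.Agent.W5h93.QD
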