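import Pool.Agent.W5h93.QD.Iso
import Pool.Agent.W5h93.QD.Deg

/-!
# Closed-open decompositions of systems of equations
-/

set_option autoImplicit false

open CategoryTheory AlgebraicGeometry MvPolynomial Pool.Agent.Y116.UV Pool.Agent.Z125.UN

namespace Pool.Agent.W5h93.QD

section lem

variable {R : Type} [CommRing R] {sep : Prop} {P : Sch R → Prop} (hP : Bnd sep P)
  {A : Type} [CommRing A] [Algebra R A] [Algebra.FiniteType R A]

omit [Algebra.FiniteType R A] in
lemma ft_away [h : Algebra.FiniteType R A] (e : A) : Algebra.FiniteType R (Localization.Away e) :=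
  Algebra.FiniteType.trans (S := A) inferInstance inferInstance

lemma ft_quot (I : Ideal A) : Algebra.FiniteType R (A ⧸ I) :=
  Algebra.FiniteType.of_surjective (Ideal.Quotient.mkₐ R I) (Ideal.Quotient.mkₐ_surjective R I)

include hP

/-- the decomposition of the base -/
lemma p_split {V : Type} [Finite V] (G : Set (MvPolynomial V A)) (e : A)
    (h1 : P (aff R (Sys (A ⧸ Ideal.span {e}) V
      (mapG (Ideal.Quotient.mkₐ R (Ideal.span {e}) : A →+* _) G))))
    (h2 : P (aff R (Sys (Localization.Away e) V (mapG (locA (R := R) e : A →+* _) G)))) :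
    P (aff R (Sys A V G)) := by
  have := ft_away (R := R) e
  have := ft_quot (R := R) (Ideal.span {e})
  exact ring_total hP (cS R G e) (iso_alg hP.toUni (cloS G e).symm h1)
    (iso_alg hP.toUni (opnS G e).symm h2)

/-- equations which only involve the base -/
lemma p_base {V : Type} [Finite V] (I : Ideal A) (G : Set (MvPolynomial V A))
    (h : P (aff R (Sys (A ⧸ I) V (mapG (Ideal.Quotient.mkₐ R I : A →+* _) G)))) :
    P (aff R (Sys A V (addI I G))) := by
  have := ft_quot (R := R) I
  exact iso_alg hP.toUni (cloI I G).symm h

lemma p_eq {V : Type} [Finite V] {G G' : Set (MvPolynomial V A)}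
    (h : Ideal.span G = Ideal.span G') (h1 : P (aff R (Sys A V G))) : P (aff R (Sys A V G')) :=
  iso_alg hP.toUni (eqE h) h1

lemma p_empty' {V : Type} [Fintype V] (h : P (aff R A)) :
    P (aff R (Sys A V (∅ : Set (MvPolynomial V A)))) := by
  have : Algebra.FiniteType R (MvPolynomial V A) :=
    Algebra.FiniteType.trans (S := A) inferInstance inferInstance
  exact iso_alg hP.toUni (emptyE V).symm (p_poly hP V h)

/-- only equations in the base -/
lemma p_const {V : Type} [Fintype V] (I : Ideal A) (h : P (aff R (A ⧸ I))) :
    P (aff R (Sys A V (C '' (I : Set A)))) := by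
  have := ft_quot (R := R) I
  have h1 : P (aff R (Sys A V (addI I (∅ : Set (MvPolynomial V A))))) := by
    apply p_base hP
    have h2 := p_empty' hP (V := V) h
    apply p_eq hP _ h2
    rw [mapG, Set.image_empty]
  apply p_eq hP _ h1
  rw [addI, Set.union_empty]

lemma p_re {V V' : Type} [Finite V] [Finite V'] (φ : MvPolynomial V A ≃ₐ[A] MvPolynomial V' A)
    {G : Set (MvPolynomial V A)} (h : P (aff R (Sys A V' (φ '' G)))) : P (aff R (Sys A V G)) :=
  iso_alg hP.toUni (autE φ G).symm h

/-- a linear equation in one variable -/
lemma p_lin1 (β γ : A) (h0 : P (aff R A)) (h1 : P (aff R (A ⧸ Ideal.span {β})))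
    (h2 : P (aff R ((A ⧸ Ideal.span {β}) ⧸ Ideal.span {Ideal.Quotient.mk (Ideal.span {β}) γ}))) :
    P (aff R (Sys A PUnit.{1} (lin1 β γ))) := by
  have := ft_away (R := R) β
  have := ft_quot (R := R) (Ideal.span {β})
  have hb : Ideal.Quotient.mkₐ R (Ideal.span {β}) β = 0 :=
    Ideal.Quotient.eq_zero_iff_mem.mpr (Ideal.mem_span_singleton_self β)
  apply p_split hP (lin1 β γ) β
  · have h3 := p_const hP (V := PUnit.{1}) _ h2
    apply p_eq hP _ h3
    rw [mapG, lin1, Set.image_singleton, map_add, map_mul, map_C, map_C, map_X]
    change _ = Ideal.span {C (Ideal.Quotient.mkₐ R (Ideal.span {β}) β) * X PUnit.unit +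
      C (Ideal.Quotient.mk (Ideal.span {β}) γ)}
    rw [hb, C_0, zero_mul, zero_add]
    apply le_antisymm
    · rw [Ideal.span_le]
      rintro _ ⟨a, ha, rfl⟩
      obtain ⟨c, rfl⟩ := Ideal.mem_span_singleton'.mp ha
      rw [C_mul]
      exact Ideal.mul_mem_left _ _ (Ideal.mem_span_singleton_self _)
    · rw [Ideal.span_singleton_le_iff_mem]
      exact Ideal.subset_span ⟨_, Ideal.mem_span_singleton_self _, rfl⟩
  · have h3 : P (aff R (Localization.Away β)) := ring_open hP β h1 h0
    obtain ⟨u, hu⟩ := IsLocalization.Away.algebraMap_isUnit (S := Localization.Away β) β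
    have h4 : (↑u⁻¹ : Localization.Away β) * algebraMap A (Localization.Away β) β = 1 := by
      rw [← hu, Units.inv_mul]
    have h5 := iso_alg hP.toUni (unitE (R := R) (↑u⁻¹ : Localization.Away β) h4
      (algebraMap A (Localization.Away β) γ)).symm h3
    have h6 : mapG (locA (R := R) β : A →+* _) (lin1 β γ) =
        lin1 (algebraMap A (Localization.Away β) β) (algebraMap A (Localization.Away β) γ) := by
      rw [mapG, lin1, Set.image_singleton, map_add, map_mul, map_C, map_C, map_X]
      rfl
    rw [h6]
    exact h5

/-- an equation which is linear in one variable -/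
lemma p_opt {W : Type} [Fintype W] (b c : MvPolynomial W A) (hA : P (aff R A))
    (h1 : P (aff R (Sys A W {b}))) (h2 : P (aff R (Sys A W {b, c}))) :
    P (aff R (Sys A (Option W) {rename some b * X none + rename some c})) := by
  have : Algebra.FiniteType R (MvPolynomial W A) :=
    Algebra.FiniteType.trans (S := A) inferInstance inferInstance
  have h3 : optP A W '' {rename some b * X none + rename some c} = lin1 b c := by
    rw [Set.image_singleton, map_add, map_mul, optP_none, optP_rename, optP_rename]
    rfl
  have h4 : P (aff R (Sys (MvPolynomial W A) PUnit.{1} (lin1 b c))) := by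
    apply p_lin1 hP
    · exact p_poly hP W hA
    · exact h1
    · apply quot_mk hP
      have h5 : Ideal.span {b, c} = Ideal.span {b} ⊔ Ideal.span {c} := Ideal.span_insert _ _
      exact iso_alg hP.toUni (Ideal.quotientEquivAlgOfEq R h5) h2
  rw [← h3] at h4
  exact iso_alg hP.toUni (optE _).symm h4

end lem

section shift

variable {A : Type} [CommRing A] {W : Type}

/-- the translation of the variable `none` -/
noncomputable def sh (t : MvPolynomial W A) :
    MvPolynomial (Option W) A →ₐ[A] MvPolynomial (Option W) A :=
  aeval (fun o => o.elim (X none + rename some t) (fun w => X (some w)))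

lemma sh_none (t : MvPolynomial W A) : sh t (X none) = X none + rename some t := aeval_X _ _

lemma sh_some (t : MvPolynomial W A) (w : W) : sh t (X (some w)) = X (some w) := aeval_X _ _

lemma sh_rename (t p : MvPolynomial W A) : sh t (rename some p) = rename some p := by
  have h : (sh t).comp (rename some) = (rename some : MvPolynomial W A →ₐ[A] _) := by
    apply MvPolynomial.algHom_ext
    intro w
    rw [AlgHom.comp_apply, rename_X, sh_some]
  exact DFunLike.congr_fun h p

lemma sh_sh (s t : MvPolynomial W A) (h : s + t = 0) : (sh s).comp (sh t) = AlgHom.id A _ := by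
  apply MvPolynomial.algHom_ext
  intro o
  rw [AlgHom.comp_apply, AlgHom.id_apply]
  rcases o with _ | w
  · rw [sh_none, map_add, sh_none, sh_rename, add_assoc, ← map_add, h, map_zero, add_zero]
  · rw [sh_some, sh_some]

/-- the translation of the variable `none` -/
noncomputable def shE (t : MvPolynomial W A) :
    MvPolynomial (Option W) A ≃ₐ[A] MvPolynomial (Option W) A :=
  AlgEquiv.ofAlgHom (sh t) (sh (-t)) (sh_sh _ _ (by ring)) (sh_sh _ _ (by ring))

lemma sh_quad (t : MvPolynomial W A) (α : A) (b c : MvPolynomial W A) :
    sh t (C α * X none ^ 2 + rename some b * X none + rename some c) =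
      C α * (X none + rename some t) ^ 2 + rename some b * (X none + rename some t) +
        rename some c := by
  have e3 : sh t (C α) = (C α : MvPolynomial (Option W) A) := (sh _).commutes α
  simp only [map_add, map_mul, map_pow, sh_none, sh_rename, e3]

/-- completion of the square -/
lemma square {α i h : A} (hi : i * α = 1) (hh : h + h = 1) (b c : MvPolynomial W A) :
    shE (-(C (h * i) * b)) (C α * X none ^ 2 + rename some b * X none + rename some c) =
      C α * X none ^ 2 + rename some (c - C (h * h * i) * b ^ 2) := by
  change sh _ _ = _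
  have e1 : (C i : MvPolynomial (Option W) A) * C α = 1 := by rw [← C_mul, hi, C_1]
  have e2 : (C h : MvPolynomial (Option W) A) + C h = 1 := by rw [← C_add, hh, C_1]
  rw [sh_quad]
  simp only [map_neg, map_mul, map_sub, map_pow, rename_C]
  set B := (rename some b : MvPolynomial (Option W) A)
  set x := (X none : MvPolynomial (Option W) A)
  set cc := (rename some c : MvPolynomial (Option W) A)
  linear_combination (-(2 : MvPolynomial (Option W) A) * C h * B * x +
    C h ^ 2 * C i * B ^ 2) * e1 - (B * x) * e2 +
    (C h * C i * B ^ 2) * e2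

end shift

end Pool.Agent.W5h93.QD
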