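import Pool.Agent.W5h93.QD.Hyp

/-!
# One quadratic equation and linear equations over a base
-/

set_option autoImplicit false

open CategoryTheory AlgebraicGeometry MvPolynomial Pool.Agent.Y116.UV Pool.Agent.Z125.UN

namespace Pool.Agent.W5h93.QD

section sqOne

variable {R : Type} [CommRing R] {A : Type} [CommRing A] [Algebra R A] {W : Type} [IsEmpty W]

/-- the equation `α x² + c = 0` -/
abbrev sqG (W : Type) (α c : A) : Set (MvPolynomial (Option W) A) := {C α * X none ^ 2 + C c}

lemma sqOne_f {α i c : A} (hi : i * α = 1) : ∀ g ∈ sqG W α c,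
    aevalTower (sqI R (-(i * c))) (fun _ => (AdjoinRoot.root _ : Sq A (-(i * c)))) g = 0 := by
  intro g hg
  rw [Set.mem_singleton_iff.mp hg, map_add, map_mul, map_pow, aevalTower_C, aevalTower_C,
    aevalTower_X, sq_root (R := R)]
  have h1 : sqI R (-(i * c)) α * sqI R (-(i * c)) (-(i * c)) + sqI R (-(i * c)) c =
      sqI R (-(i * c)) 0 := by
    rw [← map_mul, ← map_add]
    congr 1
    linear_combination (-c) * hi
  rw [h1, map_zero]

lemma sqOne_b {α i c : A} (hi : i * α = 1) :
    (xS (sqG W α c) none) ^ 2 = cS R (sqG W α c) (-(i * c)) := by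
  have h1 : cS R (sqG W α c) α * (xS (sqG W α c) none) ^ 2 + cS R (sqG W α c) c = 0 := by
    have h3 : Ideal.Quotient.mk (Ideal.span (sqG W α c)) (C α * X none ^ 2 + C c) = 0 :=
      mk_zero (Set.mem_singleton _)
    rw [map_add, map_mul, map_pow] at h3
    exact h3
  have h2 : cS R (sqG W α c) i * cS R (sqG W α c) α = 1 := by rw [← map_mul, hi, map_one]
  rw [map_neg, map_mul]
  linear_combination cS R (sqG W α c) i * h1 - (xS (sqG W α c) none) ^ 2 * h2

/-- a quadratic equation in one variable -/
noncomputable def sqOne {α i c : A} (hi : i * α = 1) :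
    Sys A (Option W) (sqG W α c) ≃ₐ[R] Sq A (-(i * c)) := by
  refine AlgEquiv.ofAlgHom
    (liftS (sqI R (-(i * c))) (fun _ => (AdjoinRoot.root _ : Sq A (-(i * c)))) (sqOne_f hi))
    (sqLift _ (cS R (sqG W α c)) (xS (sqG W α c) none) (sqOne_b hi)) ?_ ?_
  · apply sq_ext
    · intro a
      rw [AlgHom.comp_apply, sqLift_of, liftS_c]
      rfl
    · rw [AlgHom.comp_apply, sqLift_root, liftS_x]
      rfl
  · apply extS
    · intro a
      rw [AlgHom.comp_apply, liftS_c, sqLift_of]
      rfl
    · intro v
      rcases v with _ | w
      · rw [AlgHom.comp_apply, liftS_x, sqLift_root]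
        rfl
      · exact isEmptyElim w

end sqOne

section

variable {R : Type} [CommRing R] {sep : Prop} {P : Sch R → Prop} (hP : Bnd sep P)
  {K : ∀ (A : Type) [CommRing A] [Algebra R A], Prop}

lemma deg_X {A V : Type} [CommRing A] (v : V) : (X v : MvPolynomial V A).totalDegree ≤ 1 :=
  (totalDegree_monomial_le _ _).trans (by rw [Finsupp.sum_single_index] <;> rfl)

lemma deg_CX2 {A V : Type} [CommRing A] (a : A) (v : V) :
    (C a * X v ^ 2 : MvPolynomial V A).totalDegree ≤ 2 := by
  refine (totalDegree_mul _ _).trans ?_
  rw [totalDegree_C, zero_add]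
  refine (totalDegree_pow _ _).trans ?_
  have := deg_X (A := A) v
  omega

/-- exchange of the first two variables -/
noncomputable def swO (W : Type) : Option (Option W) ≃ Option (Option W) := by
  classical
  exact Equiv.swap none (some none)

lemma swO_none (W : Type) : swO W none = some none := by
  classical
  exact Equiv.swap_apply_left _ _

lemma swO_some (W : Type) : swO W (some none) = none := by
  classical
  exact Equiv.swap_apply_right _ _

lemma swO_ss (W : Type) (w : W) : swO W (some (some w)) = some (some w) := by
  classical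
  exact Equiv.swap_apply_of_ne_of_ne (by simp) (by simp)

lemma swO_rename {A W : Type} [CommRing A] (f : MvPolynomial W A) :
    rename (swO W) (rename some (rename some f)) = rename some (rename some f) := by
  have h : (swO W ∘ some) ∘ some = (some ∘ some : W → Option (Option W)) :=
    funext fun w => swO_ss W w
  rw [rename_rename, rename_rename, rename_rename, h]

include hP

/-- the case of a unit -/
lemma quad_unit {N : ℕ} (h : TL K P N) (hD : DoubleCovers P) (hB : Base K)
    (hK : ∀ (A : Type) [CommRing A] [Algebra R A] [Algebra.FiniteType R A], K A → P (aff R A))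
    {t0 : R} (ht0 : t0 + t0 = 1)
    (A : Type) [CommRing A] [Algebra R A] [Algebra.FiniteType R A] (hA : K A) (W : Type)
    [Fintype W] (hW : Fintype.card W = N) {α i : A} (hi : i * α = 1) (b c : MvPolynomial W A)
    (hb : b.totalDegree ≤ 1) (hc : c.totalDegree ≤ 2) :
    P (aff R (Sys A (Option W) {C α * X none ^ 2 + rename some b * X none + rename some c})) := by
  have ht : ∀ (B : Type) [CommRing B] [Algebra R B], algebraMap R B t0 + algebraMap R B t0 = 1 := by
    intro B _ _
    rw [← map_add, ht0, map_one]
  have hsub : ∀ {B V : Type} [CommRing B] (a : B) (c b : MvPolynomial V B), c.totalDegree ≤ 2 →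
      b.totalDegree ≤ 1 → (c - C a * b ^ 2).totalDegree ≤ 2 := by
    intro B V _ a c b hc hb
    refine (totalDegree_sub _ _).trans (max_le hc ?_)
    refine (totalDegree_mul _ _).trans ?_
    rw [totalDegree_C, zero_add]
    exact (totalDegree_pow _ _).trans (by omega)
  apply p_re hP (shE (-(C (algebraMap R A t0 * i) * b)))
  rw [Set.image_singleton, square hi (ht A)]
  set c' := c - C (algebraMap R A t0 * algebraMap R A t0 * i) * b ^ 2 with hc'
  have hcd : c'.totalDegree ≤ 2 := hsub _ c b hc hb
  clear_value c'
  rcases Nat.eq_zero_or_pos N with hN | hN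
  · -- no further variables
    have : IsEmpty W := Fintype.card_eq_zero_iff.mp (by omega)
    obtain ⟨c0, rfl⟩ : ∃ c0, c' = C c0 := ⟨_, MvPolynomial.eq_C_of_isEmpty c'⟩
    rw [rename_C]
    have h3 : P (aff R (Sq A (-(i * c0)))) := hK _ (hB.sq A hA _)
    exact iso_alg hP.toUni (sqOne (R := R) (W := W) hi).symm h3
  · obtain ⟨M, rfl⟩ : ∃ M, N = M + 1 := ⟨N - 1, by omega⟩
    obtain ⟨σ⟩ : Nonempty (W ≃ Option (Fin M)) := by
      refine ⟨Fintype.equivOfCardEq ?_⟩
      rw [hW, Fintype.card_option, Fintype.card_fin]
    apply p_re hP (renameEquiv A (Equiv.optionCongr σ))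
    have e1 : renameEquiv A (Equiv.optionCongr σ) '' {C α * X none ^ 2 + rename some c'} =
        {C α * X none ^ 2 + rename some (rename σ c')} := by
      rw [Set.image_singleton]
      change {rename (Equiv.optionCongr σ) _} = _
      simp only [map_add, map_mul, map_pow, rename_C, rename_X, rename_rename]
      rfl
    rw [e1]
    have hcd2 : (rename σ c').totalDegree ≤ 2 := (totalDegree_rename_le _ _).trans hcd
    obtain ⟨β, b2, c2, hb2, hc2, hq⟩ := deg_two hcd2
    rw [hq]
    -- exchange the two variables
    apply p_re hP (renameEquiv A (swO (Fin M)))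
    have e2 : renameEquiv A (swO (Fin M)) '' {C α * X none ^ 2 + rename some (C β * X none ^ 2 +
        rename some b2 * X none + rename some c2)} =
        {C β * X none ^ 2 + rename some (rename some b2) * X none +
          rename some (C α * X none ^ 2 + rename some c2)} := by
      rw [Set.image_singleton]
      change {rename (swO (Fin M)) _} = _
      simp only [map_add, map_mul, map_pow, rename_C, rename_X, swO_rename, swO_none, swO_some]
      congr 1
      ring
    rw [e2]
    apply p_split hP _ β
    · -- no square
      have := ft_quot (R := R) (Ideal.span {β})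
      set B := A ⧸ Ideal.span {β}
      set ι : A →+* B := (Ideal.Quotient.mkₐ R (Ideal.span {β}) : A →+* B) with hι
      have h0 : ι β = 0 := Ideal.Quotient.eq_zero_iff_mem.mpr (Ideal.mem_span_singleton_self β)
      have e3 : mapG ι {C β * X none ^ 2 + rename some (rename some b2) * X none +
          rename some (C α * X none ^ 2 + rename some c2)} =
          {rename some (rename some (MvPolynomial.map ι b2)) * X none +
            rename some (C (ι α) * X none ^ 2 + rename some (MvPolynomial.map ι c2))} := by
        rw [mapG, Set.image_singleton]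
        simp only [map_add, map_mul, map_pow, map_C, map_X, map_rename, h0, C_0, zero_mul,
          zero_add]
      rw [e3]
      apply tl_opt hP h hK B (hB.quot A hA _) (Option (Fin M))
      · rw [Fintype.card_option, Fintype.card_fin]
      · exact (totalDegree_rename_le _ _).trans ((deg_map ι b2).trans hb2)
      · refine (totalDegree_add _ _).trans (max_le (deg_CX2 _ _) ?_)
        exact (totalDegree_rename_le _ _).trans ((deg_map ι c2).trans hc2)
    · -- two squares
      have := ft_away (R := R) β
      set B := Localization.Away β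
      set ι : A →+* B := (locA (R := R) β : A →+* B) with hι
      obtain ⟨u, hu⟩ := IsLocalization.Away.algebraMap_isUnit (S := Localization.Away β) β
      have h4 : (↑u⁻¹ : B) * ι β = 1 := by
        change (↑u⁻¹ : B) * algebraMap A (Localization.Away β) β = 1
        rw [← hu, Units.inv_mul]
      have h5 : ι i * ι α = 1 := by rw [← map_mul, hi, map_one]
      have e3 : mapG ι {C β * X none ^ 2 + rename some (rename some b2) * X none +
          rename some (C α * X none ^ 2 + rename some c2)} =
          {C (ι β) * X none ^ 2 + rename some (rename some (MvPolynomial.map ι b2)) * X none +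
            rename some (C (ι α) * X none ^ 2 + rename some (MvPolynomial.map ι c2))} := by
        rw [mapG, Set.image_singleton]
        simp only [map_add, map_mul, map_pow, map_C, map_X, map_rename]
      rw [e3]
      apply p_re hP (shE (-(C (algebraMap R B t0 * ↑u⁻¹) *
        (rename some (MvPolynomial.map ι b2)))))
      rw [Set.image_singleton, square h4 (ht B)]
      have e4 : (C (ι β) * X none ^ 2 + rename some (C (ι α) * X none ^ 2 +
          rename some (MvPolynomial.map ι c2) - C (algebraMap R B t0 * algebraMap R B t0 * ↑u⁻¹) *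
            (rename some (MvPolynomial.map ι b2)) ^ 2) :
          MvPolynomial (Option (Option (Fin M))) B) =
          C (ι β) * xx B (Fin M) ^ 2 + C (ι α) * yy B (Fin M) ^ 2 +
            rename some (rename some (MvPolynomial.map ι c2 -
              C (algebraMap R B t0 * algebraMap R B t0 * ↑u⁻¹) * (MvPolynomial.map ι b2) ^ 2)) := by
        simp only [map_add, map_sub, map_mul, map_pow, rename_C, rename_X]
        ring
      rw [e4]
      apply two_sq hP h hD hB hK B (hB.away A hA _) (Fin M) (by rw [Fintype.card_fin]) h4 h5 (ht B)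
      exact hsub _ _ _ ((deg_map ι c2).trans hc2) ((deg_map ι b2).trans hb2)

/-- one quadratic equation in `N + 1` variables -/
lemma tq_succ {N : ℕ} (h : TL K P N) (hD : DoubleCovers P) (hB : Base K)
    (hK : ∀ (A : Type) [CommRing A] [Algebra R A] [Algebra.FiniteType R A], K A → P (aff R A))
    {t0 : R} (ht0 : t0 + t0 = 1) : TQ K P (N + 1) := by
  intro A _ _ _ hA V _ hV q hq
  obtain ⟨σ⟩ : Nonempty (V ≃ Option (Fin N)) := by
    refine ⟨Fintype.equivOfCardEq ?_⟩
    rw [hV, Fintype.card_option, Fintype.card_fin]
  apply p_re hP (renameEquiv A σ)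
  rw [Set.image_singleton]
  change P (aff R (Sys A (Option (Fin N)) {rename σ q}))
  have hq2 : (rename σ q).totalDegree ≤ 2 := (totalDegree_rename_le _ _).trans hq
  obtain ⟨α, b, c, hb, hc, he⟩ := deg_two hq2
  rw [he]
  apply p_split hP _ α
  · have := ft_quot (R := R) (Ideal.span {α})
    set B := A ⧸ Ideal.span {α}
    set ι : A →+* B := (Ideal.Quotient.mkₐ R (Ideal.span {α}) : A →+* B) with hι
    have h0 : ι α = 0 := Ideal.Quotient.eq_zero_iff_mem.mpr (Ideal.mem_span_singleton_self α)
    have e3 : mapG ι {C α * X none ^ 2 + rename some b * X none + rename some c} =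
        {rename some (MvPolynomial.map ι b) * X none + rename some (MvPolynomial.map ι c)} := by
      rw [mapG, Set.image_singleton]
      simp only [map_add, map_mul, map_pow, map_C, map_X, map_rename, h0, C_0, zero_mul,
        zero_add]
    rw [e3]
    exact tl_opt hP h hK B (hB.quot A hA _) (Fin N) (Fintype.card_fin N) _ _
      ((deg_map ι b).trans hb) ((deg_map ι c).trans hc)
  · have := ft_away (R := R) α
    set B := Localization.Away α
    set ι : A →+* B := (locA (R := R) α : A →+* B) with hι
    obtain ⟨u, hu⟩ := IsLocalization.Away.algebraMap_isUnit (S := Localization.Away α) α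
    have h4 : (↑u⁻¹ : B) * ι α = 1 := by
      change (↑u⁻¹ : B) * algebraMap A (Localization.Away α) α = 1
      rw [← hu, Units.inv_mul]
    have e3 : mapG ι {C α * X none ^ 2 + rename some b * X none + rename some c} =
        {C (ι α) * X none ^ 2 + rename some (MvPolynomial.map ι b) * X none +
          rename some (MvPolynomial.map ι c)} := by
      rw [mapG, Set.image_singleton]
      simp only [map_add, map_mul, map_pow, map_C, map_X, map_rename]
    rw [e3]
    exact quad_unit hP h hD hB hK ht0 B (hB.away A hA _) (Fin N) (Fintype.card_fin N) h4 _ _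
      ((deg_map ι b).trans hb) ((deg_map ι c).trans hc)

/-- one equation without variables -/
lemma tq_zero (hB : Base K)
    (hK : ∀ (A : Type) [CommRing A] [Algebra R A] [Algebra.FiniteType R A], K A → P (aff R A)) :
    TQ K P 0 := by
  intro A _ _ _ hA V _ hV q hq
  have : IsEmpty V := Fintype.card_eq_zero_iff.mp hV
  obtain ⟨c0, rfl⟩ : ∃ c0, q = C c0 := ⟨_, MvPolynomial.eq_C_of_isEmpty q⟩
  have := ft_quot (R := R) (Ideal.span {c0})
  have h1 := p_const hP (V := V) (Ideal.span {c0}) (hK _ (hB.quot A hA _))
  refine p_eq hP ?_ h1
  apply le_antisymm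
  · rw [Ideal.span_le]
    rintro _ ⟨a, ha, rfl⟩
    obtain ⟨c, rfl⟩ := Ideal.mem_span_singleton'.mp ha
    rw [C_mul]
    exact Ideal.mul_mem_left _ _ (Ideal.mem_span_singleton_self _)
  · rw [Ideal.span_singleton_le_iff_mem]
    exact Ideal.subset_span ⟨_, Ideal.mem_span_singleton_self _, rfl⟩

/-- elimination of a variable -/
lemma elim_step {N : ℕ} (h : TL K P N) (A : Type) [CommRing A] [Algebra R A]
    [Algebra.FiniteType R A] (hA : K A) (W : Type) [Fintype W] (hW : Fintype.card W = N)
    (κ : Type) [Finite κ] (b : κ → MvPolynomial (Option W) A) (q : MvPolynomial (Option W) A)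
    (hb : ∀ j, (b j).totalDegree ≤ 1) (hq : q.totalDegree ≤ 2) (j : κ) (i : A)
    (hi : i * coeff (Finsupp.single none 1) (b j) = 1) :
    P (aff R (Sys A (Option W) (insert q (Set.range b)))) := by
  obtain ⟨b0, hb0, he⟩ := deg_one (hb j)
  set t : MvPolynomial W A := -(C i * b0) with ht
  have htd : t.totalDegree ≤ 1 := by
    rw [ht, totalDegree_neg]
    refine (totalDegree_mul _ _).trans ?_
    rw [totalDegree_C, zero_add]
    exact hb0
  have hmem : X none - rename some t ∈ Ideal.span (insert q (Set.range b)) := by
    have h1 : X none - rename some t = C i * b j := by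
      rw [he, ht, map_neg, map_mul, rename_C, mul_add, ← mul_assoc, ← C_mul, hi, C_1]
      ring
    rw [h1]
    exact Ideal.mul_mem_left _ _ (Ideal.subset_span (Or.inr ⟨j, rfl⟩))
  have hw : ∀ o : Option W, (o.elim t X : MvPolynomial W A).totalDegree ≤ 1 := by
    intro o
    rcases o with _ | w
    · exact htd
    · exact deg_X w
  refine iso_alg hP.toUni (elimE (R := R) _ t hmem).symm ?_
  have e1 : subst t '' (insert q (Set.range b)) =
      insert (subst t q) (Set.range fun j => subst t (b j)) := by
    rw [Set.image_insert_eq, ← Set.range_comp]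
    rfl
  rw [e1]
  exact h A hA W hW κ _ _ (fun j => (deg_aeval _ hw _).trans (hb j)) ((deg_aeval _ hw _).trans hq)

/-- linear equations -/
lemma tl_of {N : ℕ} (hQ : TQ K P N) (hL : ∀ M, N = M + 1 → TL K P M) (hB : Base K) :
    TL K P N := by
  classical
  intro A _ _ _ hA V _ hV κ _ b q hb hq
  -- induction on the number of linear terms
  suffices H : ∀ (m : ℕ) (A : Type) [CommRing A] [Algebra R A] [Algebra.FiniteType R A], K A →
      ∀ (b : κ → MvPolynomial V A) (q : MvPolynomial V A), (∀ j, (b j).totalDegree ≤ 1) →
      q.totalDegree ≤ 2 → Set.ncard {p : κ × V | coeff (Finsupp.single p.2 1) (b p.1) ≠ 0} ≤ m →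
      P (aff R (Sys A V (insert q (Set.range b)))) from H _ A hA b q hb hq le_rfl
  intro m
  induction m with
  | zero =>
    intro A _ _ _ hA b q hb hq hm
    have h0 : ∀ j, b j = C (coeff 0 (b j)) := by
      intro j
      apply deg_const (hb j)
      intro v
      by_contra hc
      have h1 : {p : κ × V | coeff (Finsupp.single p.2 1) (b p.1) ≠ 0} = ∅ :=
        (Set.ncard_eq_zero (Set.toFinite _)).mp (by omega)
      have h2 : (j, v) ∈ {p : κ × V | coeff (Finsupp.single p.2 1) (b p.1) ≠ 0} := hc
      rw [h1] at h2
      exact h2
    let I : Ideal A := Ideal.span (Set.range fun j => coeff 0 (b j))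
    have := ft_quot (R := R) I
    have h1 : P (aff R (Sys A V (addI I {q}))) := by
      apply p_base hP
      rw [mapG, Set.image_singleton]
      exact hQ _ (hB.quot A hA I) V hV _ ((deg_map _ q).trans hq)
    refine p_eq hP ?_ h1
    apply le_antisymm
    · rw [Ideal.span_le]
      rintro f (⟨a, ha, rfl⟩ | hf)
      · change C a ∈ Ideal.span (insert q (Set.range b))
        have h3 : I ≤ (Ideal.span (insert q (Set.range b))).comap C := by
          rw [Ideal.span_le]
          rintro _ ⟨j, rfl⟩
          change C (coeff 0 (b j)) ∈ Ideal.span (insert q (Set.range b))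
          rw [← h0 j]
          exact Ideal.subset_span (Or.inr ⟨j, rfl⟩)
        exact h3 ha
      · exact Ideal.subset_span (Or.inl hf)
    · rw [Ideal.span_le]
      rintro f (hf | ⟨j, rfl⟩)
      · exact Ideal.subset_span (Or.inr hf)
      · rw [h0 j]
        exact Ideal.subset_span (Or.inl ⟨_, Ideal.subset_span ⟨j, rfl⟩, rfl⟩)
  | succ m ih =>
    intro A _ _ _ hA b q hb hq hm
    by_cases hz : ∃ p : κ × V, coeff (Finsupp.single p.2 1) (b p.1) ≠ 0
    swap
    · apply ih A hA b q hb hq
      have h1 : {p : κ × V | coeff (Finsupp.single p.2 1) (b p.1) ≠ 0} = ∅ := by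
        push Not at hz
        ext p
        simp only [Set.mem_ofPred_eq, Set.mem_empty_iff_false, iff_false, not_not]
        exact hz p
      rw [h1, Set.ncard_empty]
      exact Nat.zero_le _
    obtain ⟨⟨j, v⟩, he⟩ := hz
    set e := coeff (Finsupp.single v 1) (b j) with hedef
    have hmap : ∀ {B : Type} [CommRing B] (ι : A →+* B), mapG ι (insert q (Set.range b)) =
        insert (MvPolynomial.map ι q) (Set.range fun j => MvPolynomial.map ι (b j)) := by
      intro B _ ι
      rw [mapG, Set.image_insert_eq, ← Set.range_comp]
      rfl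
    apply p_split hP _ e
    · have := ft_quot (R := R) (Ideal.span {e})
      rw [hmap]
      apply ih _ (hB.quot A hA _) _ _ (fun j => (deg_map _ _).trans (hb j))
        ((deg_map _ _).trans hq)
      have h1 : {p : κ × V | coeff (Finsupp.single p.2 1) (MvPolynomial.map
          (Ideal.Quotient.mkₐ R (Ideal.span {e}) : A →+* A ⧸ Ideal.span {e}) (b p.1)) ≠ 0} ⊂
          {p : κ × V | coeff (Finsupp.single p.2 1) (b p.1) ≠ 0} := by
        refine ⟨?_, ?_⟩
        · intro p hp hc
          apply hp
          change coeff (Finsupp.single p.2 1) (MvPolynomial.map _ (b p.1)) = 0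
          rw [coeff_map, hc, map_zero]
        · intro hc
          have h2 : (j, v) ∈ {p : κ × V | coeff (Finsupp.single p.2 1) (b p.1) ≠ 0} := he
          have h3 := hc h2
          apply h3
          change coeff (Finsupp.single v 1) (MvPolynomial.map _ (b j)) = 0
          rw [coeff_map, ← hedef]
          exact Ideal.Quotient.eq_zero_iff_mem.mpr (Ideal.mem_span_singleton_self e)
      have h2 := Set.ncard_lt_ncard h1 (Set.toFinite _)
      omega
    · have := ft_away (R := R) e
      rw [hmap]
      set B := Localization.Away e
      set ι : A →+* B := (locA (R := R) e : A →+* B) with hι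
      obtain ⟨u, hu⟩ := IsLocalization.Away.algebraMap_isUnit (S := Localization.Away e) e
      have h4 : (↑u⁻¹ : B) * ι e = 1 := by
        change (↑u⁻¹ : B) * algebraMap A (Localization.Away e) e = 1
        rw [← hu, Units.inv_mul]
      let W := {w : V // w ≠ v}
      have hW : Fintype.card W + 1 = Fintype.card V := by
        have h5 := Fintype.card_congr (Equiv.optionSubtypeNe v)
        rw [Fintype.card_option] at h5
        exact h5
      let σ : V ≃ Option W := (Equiv.optionSubtypeNe v).symm
      have hσ : σ v = none := by
        rw [Equiv.symm_apply_eq]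
        rfl
      apply p_re hP (renameEquiv B σ)
      have e1 : renameEquiv B σ '' insert (MvPolynomial.map ι q)
          (Set.range fun j => MvPolynomial.map ι (b j)) =
          insert (rename σ (MvPolynomial.map ι q))
            (Set.range fun j => rename σ (MvPolynomial.map ι (b j))) := by
        rw [Set.image_insert_eq, ← Set.range_comp]
        rfl
      rw [e1]
      apply elim_step hP (hL (Fintype.card W) (by omega)) B (hB.away A hA _) W rfl κ _ _
        (fun j => (totalDegree_rename_le _ _).trans ((deg_map _ _).trans (hb j)))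
        ((totalDegree_rename_le _ _).trans ((deg_map _ _).trans hq)) j (↑u⁻¹)
      have h6 : coeff (Finsupp.single none 1) (rename σ (MvPolynomial.map ι (b j))) = ι e := by
        have h7 : (Finsupp.single (none : Option W) 1 : Option W →₀ ℕ) =
            Finsupp.mapDomain σ (Finsupp.single v 1) := by
          rw [Finsupp.mapDomain_single, hσ]
        rw [h7, coeff_rename_mapDomain _ σ.injective, coeff_map]
      rw [h6]
      exact h4

/-- **One quadratic equation and linear equations.** -/
theorem tl_all (hD : DoubleCovers P) (hB : Base K)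
    (hK : ∀ (A : Type) [CommRing A] [Algebra R A] [Algebra.FiniteType R A], K A → P (aff R A))
    {t0 : R} (ht0 : t0 + t0 = 1) : ∀ N, TL K P N
  | 0 => tl_of hP (tq_zero hP hB hK) (fun M hM => absurd hM (by omega)) hB
  | N + 1 => tl_of hP (tq_succ hP (tl_all hD hB hK ht0 N) hD hB hK ht0)
      (fun M hM => by
        obtain rfl : N = M := by omega
        exact tl_all hD hB hK ht0 N) hB

end

end Pool.Agent.W5h93.QD
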